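import Mathlib
import Pool.Agent.H438R2.PD.Defs
import Pool.Agent.Helper390.CovarioA
set_option autoImplicit false

/-! # The mixed norm bound of the extension operator of the parabola -/

namespace Pool.Agent.H438R2.PD.A4

open MeasureTheory Set Complex
open scoped ENNReal RealInnerProductSpace FourierTransform

/-- the function whose Fourier transform is `E1 a · l` -/
noncomputable def F0 (a : ℝ → ℂ) (l : ℝ) : ℝ → ℂ :=
  (Ioo (-1 : ℝ) 1).indicator fun u => a u * Complex.exp (((l * u ^ 2 : ℝ) : ℂ) * I)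

theorem F0_meas (a : ℝ → ℂ) (ha : Measurable a) (l : ℝ) : Measurable (F0 a l) := by
  unfold F0
  refine Measurable.indicator ?_ measurableSet_Ioo
  fun_prop

theorem F0_norm_le (a : ℝ → ℂ) (M : ℝ) (hM : ∀ u, ‖a u‖ ≤ M) (l u : ℝ) :
    ‖F0 a l u‖ ≤ (Ioo (-1 : ℝ) 1).indicator (fun _ => M) u := by
  unfold F0
  by_cases hu : u ∈ Ioo (-1 : ℝ) 1
  · rw [indicator_of_mem hu, indicator_of_mem hu, norm_mul, Complex.norm_exp_ofReal_mul_I, mul_one]
    exact hM u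
  · rw [indicator_of_notMem hu, indicator_of_notMem hu, norm_zero]

theorem F0_int (a : ℝ → ℂ) (ha : Measurable a) (M : ℝ) (hM : ∀ u, ‖a u‖ ≤ M) (l : ℝ) :
    Integrable (F0 a l) := by
  have h1 : Integrable ((Ioo (-1 : ℝ) 1).indicator (fun _ : ℝ => M)) := by
    rw [integrable_indicator_iff measurableSet_Ioo]
    exact integrableOn_const (by simp)
  exact h1.mono' (F0_meas a ha l).aestronglyMeasurable
    (Filter.Eventually.of_forall fun u => F0_norm_le a M hM l u)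

theorem F0_memLp (a : ℝ → ℂ) (ha : Measurable a) (M : ℝ) (hM : ∀ u, ‖a u‖ ≤ M) (l : ℝ) :
    MemLp (F0 a l) 2 := by
  have h1 : MemLp ((Ioo (-1 : ℝ) 1).indicator (fun _ : ℝ => M)) 2 :=
    memLp_indicator_const 2 measurableSet_Ioo M (Or.inr (by simp))
  refine h1.mono (F0_meas a ha l).aestronglyMeasurable
    (Filter.Eventually.of_forall fun u => ?_)
  exact (F0_norm_le a M hM l u).trans (le_abs_self _)

theorem F0_l2 (a : ℝ → ℂ) (M : ℝ) (hM : ∀ u, ‖a u‖ ≤ M) (l : ℝ) :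
    ∫⁻ u, ENNReal.ofReal (‖F0 a l u‖ ^ 2) ≤ ENNReal.ofReal (2 * M ^ 2) := by
  calc ∫⁻ u, ENNReal.ofReal (‖F0 a l u‖ ^ 2)
      ≤ ∫⁻ u, (Ioo (-1 : ℝ) 1).indicator (fun _ => ENNReal.ofReal (M ^ 2)) u := by
        refine lintegral_mono fun u => ?_
        have h := F0_norm_le a M hM l u
        by_cases hu : u ∈ Ioo (-1 : ℝ) 1
        · rw [indicator_of_mem hu] at h ⊢
          exact ENNReal.ofReal_le_ofReal (pow_le_pow_left₀ (norm_nonneg _) h 2)
        · rw [indicator_of_notMem hu] at h ⊢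
          have h0 : ‖F0 a l u‖ = 0 := le_antisymm h (norm_nonneg _)
          simp only [h0]
          simp
    _ = ENNReal.ofReal (2 * M ^ 2) := by
        rw [lintegral_indicator measurableSet_Ioo, setLIntegral_const, Real.volume_Ioo,
          ← ENNReal.ofReal_mul (by positivity)]
        congr 1
        ring

theorem E1_eq (a : ℝ → ℂ) (ξ l : ℝ) :
    E1 a ξ l = 𝓕 (F0 a l) ((2 * Real.pi)⁻¹ * ξ) := by
  rw [Real.fourier_real_eq_integral_exp_smul]
  unfold E1 F0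
  rw [← integral_indicator measurableSet_Ioo]
  refine integral_congr_ae (Filter.Eventually.of_forall fun u => ?_)
  simp only
  by_cases hu : u ∈ Ioo (-1 : ℝ) 1
  · rw [indicator_of_mem hu, indicator_of_mem hu, smul_eq_mul]
    have h1 : Complex.exp (((l * u ^ 2 - ξ * u : ℝ) : ℂ) * I) =
        Complex.exp (((-2 * Real.pi * u * ((2 * Real.pi)⁻¹ * ξ) : ℝ) : ℂ) * I) *
          Complex.exp (((l * u ^ 2 : ℝ) : ℂ) * I) := by
      rw [← Complex.exp_add, ← add_mul, ← Complex.ofReal_add]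
      congr 3
      have := Real.pi_ne_zero
      field_simp
      ring
    rw [h1]
    ring
  · rw [indicator_of_notMem hu, indicator_of_notMem hu, smul_zero]

theorem cov (g : ℝ → ℝ≥0∞) (hg : Measurable g) :
    ∫⁻ ξ, g ((2 * Real.pi)⁻¹ * ξ) = ENNReal.ofReal (2 * Real.pi) * ∫⁻ η, g η := by
  have hpi := Real.pi_pos
  have h1 : ∫⁻ ξ, g ((2 * Real.pi)⁻¹ * ξ) =
      ∫⁻ η, g η ∂(Measure.map (fun x : ℝ => (2 * Real.pi)⁻¹ * x) volume) :=
    (lintegral_map hg (by fun_prop)).symm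
  rw [h1, Real.map_volume_mul_left (by positivity), lintegral_smul_measure, inv_inv,
    abs_of_pos (by positivity), smul_eq_mul]

theorem E1_cont (a : ℝ → ℂ) (ha : Measurable a) (M : ℝ) (hM : ∀ u, ‖a u‖ ≤ M) (l : ℝ) :
    Continuous fun ξ => E1 a ξ l := by
  have h1 : Continuous (𝓕 (F0 a l)) :=
    VectorFourier.fourierIntegral_continuous Real.continuous_fourierChar
      (by exact continuous_inner) (F0_int a ha M hM l)
  have h2 : (fun ξ => E1 a ξ l) = fun ξ => 𝓕 (F0 a l) ((2 * Real.pi)⁻¹ * ξ) :=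
    funext fun ξ => E1_eq a ξ l
  rw [h2]
  exact h1.comp (by fun_prop)

theorem l2 (a : ℝ → ℂ) (ha : Measurable a) (M : ℝ) (hM : ∀ u, ‖a u‖ ≤ M) (l : ℝ) :
    ∫⁻ ξ, ENNReal.ofReal (‖E1 a ξ l‖ ^ 2) ≤ ENNReal.ofReal (4 * Real.pi * M ^ 2) := by
  have hpi := Real.pi_pos
  have hi := F0_int a ha M hM l
  have hl := F0_memLp a ha M hM l
  obtain ⟨hF, hpl⟩ := Pool.Agent.Helper390.Covario.plancherel hi hl
  have hcF : Continuous (𝓕 (F0 a l)) :=
    VectorFourier.fourierIntegral_continuous Real.continuous_fourierChar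
      (by exact continuous_inner) hi
  have h1 : ∫⁻ ξ, ENNReal.ofReal (‖E1 a ξ l‖ ^ 2) =
      ENNReal.ofReal (2 * Real.pi) * ∫⁻ η, ENNReal.ofReal (‖𝓕 (F0 a l) η‖ ^ 2) := by
    have h2 := cov (fun η => ENNReal.ofReal (‖𝓕 (F0 a l) η‖ ^ 2))
      (ENNReal.measurable_ofReal.comp (hcF.norm.pow 2).measurable)
    rw [← h2]
    refine lintegral_congr fun ξ => ?_
    rw [E1_eq]
  have h3 : ∫⁻ η, ENNReal.ofReal (‖𝓕 (F0 a l) η‖ ^ 2) =
      ∫⁻ u, ENNReal.ofReal (‖F0 a l u‖ ^ 2) := by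
    rw [← ofReal_integral_eq_lintegral_ofReal, ← ofReal_integral_eq_lintegral_ofReal, hpl]
    · exact hl.integrable_norm_pow (by norm_num)
    · exact Filter.Eventually.of_forall fun _ => by positivity
    · exact hF.integrable_norm_pow (by norm_num)
    · exact Filter.Eventually.of_forall fun _ => by positivity
  rw [h1, h3]
  calc ENNReal.ofReal (2 * Real.pi) * ∫⁻ u, ENNReal.ofReal (‖F0 a l u‖ ^ 2)
      ≤ ENNReal.ofReal (2 * Real.pi) * ENNReal.ofReal (2 * M ^ 2) := by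
        gcongr
        exact F0_l2 a M hM l
    _ = ENNReal.ofReal (4 * Real.pi * M ^ 2) := by
        rw [← ENNReal.ofReal_mul (by positivity)]
        congr 1
        ring

/-- Hölder for a fixed `l`. -/
theorem holder (f : ℝ → ℂ) (hf : Continuous f) (p P : ℝ) (hp : 2 < p) (hpP : p < P) :
    ∫⁻ ξ, ENNReal.ofReal (‖f ξ‖ ^ p) ≤
      (∫⁻ ξ, ENNReal.ofReal (‖f ξ‖ ^ 2)) ^ ((P - p) / (P - 2)) *
        (∫⁻ ξ, ENNReal.ofReal (‖f ξ‖ ^ P)) ^ ((p - 2) / (P - 2)) := by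
  have hP2 : 0 < P - 2 := by linarith
  have h1 : 0 ≤ (P - p) / (P - 2) := div_nonneg (by linarith) hP2.le
  have h2 : 0 ≤ (p - 2) / (P - 2) := div_nonneg (by linarith) hP2.le
  have h3 : (P - p) / (P - 2) + (p - 2) / (P - 2) = 1 := by
    field_simp
    ring
  have hm1 : AEMeasurable (fun ξ => ENNReal.ofReal (‖f ξ‖ ^ 2)) (volume : Measure ℝ) :=
    (ENNReal.measurable_ofReal.comp (hf.norm.pow 2).measurable).aemeasurable
  have hm2 : AEMeasurable (fun ξ => ENNReal.ofReal (‖f ξ‖ ^ P)) (volume : Measure ℝ) :=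
    (ENNReal.measurable_ofReal.comp (hf.norm.measurable.pow_const P)).aemeasurable
  refine le_trans (le_of_eq ?_) (ENNReal.lintegral_mul_norm_pow_le hm1 hm2 h1 h2 h3)
  refine lintegral_congr fun ξ => ?_
  rw [ENNReal.ofReal_rpow_of_nonneg (by positivity) h1,
    ENNReal.ofReal_rpow_of_nonneg (by positivity) h2, ← ENNReal.ofReal_mul (by positivity)]
  congr 1
  have hn := norm_nonneg (f ξ)
  rw [← Real.rpow_natCast (‖f ξ‖) 2, ← Real.rpow_mul hn, ← Real.rpow_mul hn,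
    ← Real.rpow_add_of_nonneg hn (by positivity) (mul_nonneg (by linarith) h2)]
  congr 1
  push_cast
  field_simp
  ring

theorem mixed_of
    (hpar : ∀ (P : ℝ), 4 < P → ∃ C : ℝ, 0 < C ∧ ∀ (a : ℝ → ℂ) (M : ℝ),
      Measurable a → (∀ u, ‖a u‖ ≤ M) →
      ∫⁻ l, ∫⁻ ξ, ENNReal.ofReal (‖E1 a ξ l‖ ^ P) ≤ ENNReal.ofReal (C * M ^ P))
    (m : ℕ) (hm : 3 ≤ m) (p : ℝ) (hp : 2 * (m : ℝ) / (m - 1) < p) (hp2 : p < 2 * m) :
    ∃ C : ℝ, 0 < C ∧ ∀ (a : ℝ → ℂ) (M : ℝ), Measurable a → (∀ u, ‖a u‖ ≤ M) →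
    ∫⁻ l, (∫⁻ ξ, ENNReal.ofReal (‖E1 a ξ l‖ ^ p)) ^ (2 * (m : ℝ) / p) ≤
      ENNReal.ofReal (C * M ^ (2 * m)) := by
  have hm3 : (3 : ℝ) ≤ m := by exact_mod_cast hm
  have hm1 : (0 : ℝ) < (m : ℝ) - 1 := by linarith
  have hpm : 2 * (m : ℝ) < p * (m - 1) := by rwa [div_lt_iff₀ hm1] at hp
  have hp2' : 2 < p := by nlinarith
  have hp0 : 0 < p := by linarith
  obtain ⟨P, hPdef⟩ : ∃ P : ℝ, P = 2 + 2 * m * (p - 2) / p := ⟨_, rfl⟩
  have hPp : (P - 2) * p = 2 * m * (p - 2) := by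
    rw [hPdef]
    field_simp
    ring
  have hP4 : 4 < P := by
    have h1 : 2 < 2 * m * (p - 2) / p := by
      rw [lt_div_iff₀ hp0]
      nlinarith
    linarith
  have hpP : p < P := by
    have h1 : p - 2 < 2 * m * (p - 2) / p := by
      rw [lt_div_iff₀ hp0]
      nlinarith
    linarith
  have hP2 : 0 < P - 2 := by linarith
  have hp20 : 0 < p - 2 := by linarith
  obtain ⟨C, hC, hCb⟩ := hpar P hP4
  have hpi := Real.pi_pos
  obtain ⟨κ, hκ⟩ : ∃ κ : ℝ, κ = (P - p) / (p - 2) := ⟨_, rfl⟩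
  have hκ0 : 0 ≤ κ := by rw [hκ]; exact div_nonneg (by linarith) hp20.le
  refine ⟨(4 * Real.pi) ^ κ * C, by positivity, fun a M ha hM => ?_⟩
  have hM0 : 0 ≤ M := (norm_nonneg _).trans (hM 0)
  have hexp0 : 0 ≤ 2 * (m : ℝ) / p := by positivity
  have e1 : (P - p) / (P - 2) * (2 * (m : ℝ) / p) = κ := by
    rw [hκ]
    field_simp
    nlinarith
  have e2 : (p - 2) / (P - 2) * (2 * (m : ℝ) / p) = 1 := by
    rw [div_mul_div_comm, div_eq_one_iff_eq (by positivity)]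
    linarith
  have hpt : ∀ l, (∫⁻ ξ, ENNReal.ofReal (‖E1 a ξ l‖ ^ p)) ^ (2 * (m : ℝ) / p) ≤
      ENNReal.ofReal ((4 * Real.pi * M ^ 2) ^ κ) *
        ∫⁻ ξ, ENNReal.ofReal (‖E1 a ξ l‖ ^ P) := by
    intro l
    have h1 := holder (fun ξ => E1 a ξ l) (E1_cont a ha M hM l) p P hp2' hpP
    calc (∫⁻ ξ, ENNReal.ofReal (‖E1 a ξ l‖ ^ p)) ^ (2 * (m : ℝ) / p)
        ≤ ((∫⁻ ξ, ENNReal.ofReal (‖E1 a ξ l‖ ^ 2)) ^ ((P - p) / (P - 2)) *
        (∫⁻ ξ, ENNReal.ofReal (‖E1 a ξ l‖ ^ P)) ^ ((p - 2) / (P - 2))) ^ (2 * (m : ℝ) / p) :=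
          ENNReal.rpow_le_rpow h1 hexp0
      _ = (∫⁻ ξ, ENNReal.ofReal (‖E1 a ξ l‖ ^ 2)) ^ κ *
          ∫⁻ ξ, ENNReal.ofReal (‖E1 a ξ l‖ ^ P) := by
          rw [ENNReal.mul_rpow_of_nonneg _ _ hexp0, ← ENNReal.rpow_mul, ← ENNReal.rpow_mul, e1, e2,
            ENNReal.rpow_one]
      _ ≤ ENNReal.ofReal ((4 * Real.pi * M ^ 2) ^ κ) *
          ∫⁻ ξ, ENNReal.ofReal (‖E1 a ξ l‖ ^ P) := by
          gcongr
          rw [← ENNReal.ofReal_rpow_of_nonneg (by positivity) hκ0]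
          exact ENNReal.rpow_le_rpow (l2 a ha M hM l) hκ0
  calc ∫⁻ l, (∫⁻ ξ, ENNReal.ofReal (‖E1 a ξ l‖ ^ p)) ^ (2 * (m : ℝ) / p)
      ≤ ∫⁻ l, ENNReal.ofReal ((4 * Real.pi * M ^ 2) ^ κ) *
        ∫⁻ ξ, ENNReal.ofReal (‖E1 a ξ l‖ ^ P) := lintegral_mono hpt
    _ = ENNReal.ofReal ((4 * Real.pi * M ^ 2) ^ κ) *
        ∫⁻ l, ∫⁻ ξ, ENNReal.ofReal (‖E1 a ξ l‖ ^ P) :=
          lintegral_const_mul' _ _ ENNReal.ofReal_ne_top
    _ ≤ ENNReal.ofReal ((4 * Real.pi * M ^ 2) ^ κ) * ENNReal.ofReal (C * M ^ P) := by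
          gcongr
          exact hCb a M ha hM
    _ = ENNReal.ofReal ((4 * Real.pi) ^ κ * C * M ^ (2 * m)) := by
          rw [← ENNReal.ofReal_mul (by positivity)]
          congr 1
          have h1 : (4 * Real.pi * M ^ 2) ^ κ = (4 * Real.pi) ^ κ * M ^ (2 * κ) := by
            rw [Real.mul_rpow (by positivity) (by positivity), ← Real.rpow_natCast M 2,
              ← Real.rpow_mul hM0]
            norm_num
          have h2 : M ^ (2 * κ) * M ^ P = M ^ (2 * m) := by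
            rw [← Real.rpow_add_of_nonneg hM0 (by positivity) (by linarith),
              ← Real.rpow_natCast M (2 * m)]
            congr 1
            push_cast
            rw [hκ]
            field_simp
            nlinarith
          rw [h1, ← h2]
          ring

end Pool.Agent.H438R2.PD.A4
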