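import Mathlib
import Pool.Agent.H438R2.PD.Defs
import Pool.Agent.H438R2.BR.T7
import Pool.Agent.Helper390.CovarioA
set_option autoImplicit false

/-! # Product densities: the image under `x ↦ |x|^2` and Plancherel (task A6) -/

namespace Pool.Agent.H438R2.PD

open MeasureTheory Set Complex
open scoped ENNReal RealInnerProductSpace FourierTransform
open Pool.Agent.H789R2.FR (E sg)

namespace A6

theorem meas_ten {m : ℕ} (a : Fin m → ℝ → ℂ) (ha : ∀ j, Measurable (a j)) :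
    Measurable (ten a) := by
  unfold ten
  refine Finset.measurable_prod _ fun j _ => (ha j).comp ?_
  fun_prop

theorem ten_norm_le {m : ℕ} (a : Fin m → ℝ → ℂ) (M : ℝ) (hM : ∀ j u, ‖a j u‖ ≤ M) (x : E m) :
    ‖ten a x‖ ≤ M ^ m := by
  unfold ten
  rw [norm_prod]
  calc ∏ j, ‖a j (x j)‖ ≤ ∏ _j : Fin m, M :=
        Finset.prod_le_prod (fun j _ => norm_nonneg _) (fun j _ => hM j _)
    _ = M ^ m := by simp

theorem ten_zero {m : ℕ} (hm : 2 ≤ m) (a : Fin m → ℝ → ℂ)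
    (hs : ∀ j u, u ∉ Ioo (-1 : ℝ) 1 → a j u = 0) (x : E m) (hx : (m : ℝ) ≤ ‖x‖ ^ 2) :
    ten a x = 0 := by
  by_contra h
  have h1 : ∀ j, x j ∈ Ioo (-1 : ℝ) 1 := fun j => by
    by_contra hj
    exact h (Finset.prod_eq_zero (Finset.mem_univ j) (hs j _ hj))
  have h2 : ‖x‖ ^ 2 < m := by
    rw [EuclideanSpace.real_norm_sq_eq]
    have h3 : ∑ j, x j ^ 2 < ∑ _j : Fin m, (1 : ℝ) := by
      have : Nonempty (Fin m) := ⟨⟨0, by omega⟩⟩
      refine Finset.sum_lt_sum_of_nonempty Finset.univ_nonempty fun j _ => ?_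
      have := h1 j
      nlinarith [this.1, this.2]
    simpa using h3
  linarith

theorem exp_norm (t : ℝ) : ‖Complex.exp (-((t : ℝ) : ℂ) * I)‖ = 1 := by
  rw [← Complex.ofReal_neg, Complex.norm_exp_ofReal_mul_I]

end A6

open A6

theorem hh_meas {m : ℕ} (a : Fin m → ℝ → ℂ) (ha : ∀ j, Measurable (a j)) (ξ : E m) :
    Measurable (hh a ξ) := by
  have := Pool.Agent.H789R2.FR.sg_finite m
  unfold hh
  have h1 : StronglyMeasurable (fun p : ℝ × E m => ten a (Real.sqrt p.1 • p.2) *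
      Complex.exp (-((⟪Real.sqrt p.1 • p.2, ξ⟫ : ℝ) : ℂ) * I)) := by
    apply Measurable.stronglyMeasurable
    refine Measurable.mul ((meas_ten a ha).comp (by fun_prop)) (by fun_prop)
  exact Measurable.mul (by fun_prop) (h1.integral_prod_right' (ν := sg m)).measurable

theorem hh_bdd {m : ℕ} (hm : 2 ≤ m) (a : Fin m → ℝ → ℂ) (M : ℝ) (_ha : ∀ j, Measurable (a j))
    (hM : ∀ j u, ‖a j u‖ ≤ M) (hs : ∀ j u, u ∉ Ioo (-1 : ℝ) 1 → a j u = 0) (ξ : E m) :
    ∃ K : ℝ, 0 ≤ K ∧ (∀ w, 0 ≤ w → ‖hh a ξ w‖ ≤ K) ∧ ∀ w, (m : ℝ) ≤ w → hh a ξ w = 0 := by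
  have := Pool.Agent.H789R2.FR.sg_finite m
  have hM0 : 0 ≤ M := (norm_nonneg _).trans (hM ⟨0, by omega⟩ 0)
  have hz : ∀ w, (m : ℝ) ≤ w → hh a ξ w = 0 := by
    intro w hw
    have hw0 : 0 ≤ w := le_trans (Nat.cast_nonneg m) hw
    unfold hh
    have : ∫ u, ten a (Real.sqrt w • u) *
      Complex.exp (-((⟪Real.sqrt w • u, ξ⟫ : ℝ) : ℂ) * I) ∂(sg m) = 0 := by
      apply integral_eq_zero_of_ae
      filter_upwards [Pool.Agent.H789R2.FR.sg_ae m] with u hu
      rw [ten_zero hm a hs, zero_mul]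
      · rfl
      · rw [norm_smul, hu, mul_one, Real.norm_of_nonneg (Real.sqrt_nonneg _), Real.sq_sqrt hw0]
        exact hw
    rw [this, mul_zero]
  refine ⟨(m : ℝ) ^ (((m : ℝ) - 2) / 2) / 2 * (M ^ m * (sg m).real univ), by positivity, ?_, hz⟩
  intro w hw
  by_cases hwm : (m : ℝ) ≤ w
  · rw [hz w hwm, norm_zero]
    positivity
  · push Not at hwm
    unfold hh
    rw [norm_mul]
    refine mul_le_mul ?_ ?_ (norm_nonneg _) (by positivity)
    · rw [Complex.norm_real, Real.norm_of_nonneg (by positivity)]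
      have hm2 : (2 : ℝ) ≤ m := by exact_mod_cast hm
      have := Real.rpow_le_rpow hw hwm.le (z := ((m : ℝ) - 2) / 2) (by linarith)
      linarith
    · refine (norm_integral_le_of_norm_le_const (C := M ^ m) ?_)
      refine Filter.Eventually.of_forall fun u => ?_
      rw [norm_mul, exp_norm, mul_one]
      exact ten_norm_le a M hM _

namespace A6

/-- the integrand on `E m` -/
noncomputable def FF {m : ℕ} (a : Fin m → ℝ → ℂ) (ξ : E m) (l : ℝ) (x : E m) : ℂ :=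
  ten a x * Complex.exp (((l * ‖x‖ ^ 2 - ⟪x, ξ⟫ : ℝ) : ℂ) * I)

theorem FF_meas {m : ℕ} (a : Fin m → ℝ → ℂ) (ha : ∀ j, Measurable (a j)) (ξ : E m) (l : ℝ) :
    Measurable (FF a ξ l) := by
  unfold FF
  exact (meas_ten a ha).mul (by fun_prop)

theorem FF_integrable {m : ℕ} (hm : 2 ≤ m) (a : Fin m → ℝ → ℂ) (M : ℝ)
    (ha : ∀ j, Measurable (a j)) (hM : ∀ j u, ‖a j u‖ ≤ M)
    (hs : ∀ j u, u ∉ Ioo (-1 : ℝ) 1 → a j u = 0) (ξ : E m) (l : ℝ) :
    Integrable (FF a ξ l) := by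
  rw [← integrableOn_iff_integrable_of_support_subset (s := Metric.closedBall (0 : E m) m)]
  · refine Measure.integrableOn_of_bounded (M := M ^ m) ?_
      (FF_meas a ha ξ l).aestronglyMeasurable ?_
    · exact measure_closedBall_lt_top.ne
    · refine Filter.Eventually.of_forall fun x => ?_
      unfold FF
      rw [norm_mul, Complex.norm_exp_ofReal_mul_I, mul_one]
      exact ten_norm_le a M hM _
  · intro x hx
    rw [mem_closedBall_zero_iff]
    by_contra hcon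
    push Not at hcon
    apply hx
    unfold FF
    rw [ten_zero hm a hs x, zero_mul]
    have hm1 : (1 : ℝ) ≤ m := by exact_mod_cast (by omega : 1 ≤ m)
    nlinarith

theorem prod_eq_int {m : ℕ} (a : Fin m → ℝ → ℂ)
    (hs : ∀ j u, u ∉ Ioo (-1 : ℝ) 1 → a j u = 0) (ξ : E m) (l : ℝ) :
    ∏ j, E1 (a j) (ξ j) l = ∫ x, FF a ξ l x := by
  have h1 : ∀ j, E1 (a j) (ξ j) l =
      ∫ u, a j u * Complex.exp (((l * u ^ 2 - ξ j * u : ℝ) : ℂ) * I) := by
    intro j
    unfold E1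
    exact setIntegral_eq_integral_of_forall_compl_eq_zero fun u hu => by rw [hs j u hu, zero_mul]
  simp_rw [h1]
  rw [← integral_fintype_prod_volume_eq_prod
    (fun j (u : ℝ) => a j u * Complex.exp (((l * u ^ 2 - ξ j * u : ℝ) : ℂ) * I))]
  rw [← (EuclideanSpace.volume_preserving_symm_measurableEquiv_toLp (Fin m)).integral_comp']
  refine integral_congr_ae (Filter.Eventually.of_forall fun x => ?_)
  simp only [MeasurableEquiv.toLp_symm_apply]
  unfold FF ten
  rw [Finset.prod_mul_distrib, ← Complex.exp_sum, ← Finset.sum_mul]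
  congr 3
  rw [← Complex.ofReal_sum]
  congr 1
  rw [EuclideanSpace.real_norm_sq_eq, PiLp.inner_apply, Finset.mul_sum, ← Finset.sum_sub_distrib]
  refine Finset.sum_congr rfl fun j _ => ?_
  simp

theorem prod_eq {m : ℕ} (hm : 2 ≤ m) (a : Fin m → ℝ → ℂ) (M : ℝ)
    (ha : ∀ j, Measurable (a j)) (hM : ∀ j u, ‖a j u‖ ≤ M)
    (hs : ∀ j u, u ∉ Ioo (-1 : ℝ) 1 → a j u = 0) (ξ : E m) (l : ℝ) :
    ∏ j, E1 (a j) (ξ j) l =
      ∫ w in Ioi (0 : ℝ), hh a ξ w * Complex.exp (((l * w : ℝ) : ℂ) * I) := by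
  rw [prod_eq_int a hs, Pool.Agent.H438R2.BR.T7.polar_int (by omega : 0 < m) _
    (FF_integrable hm a M ha hM hs ξ l),
    ← integral_comp_rpow_Ioi (fun w => hh a ξ w * Complex.exp (((l * w : ℝ) : ℂ) * I))
      (p := 2) (by norm_num)]
  refine setIntegral_congr_fun measurableSet_Ioi fun r hr => ?_
  have hr0 : (0 : ℝ) < r := hr
  have e1 : ∫ w, FF a ξ l (r • w) ∂(sg m) = Complex.exp (((l * r ^ 2 : ℝ) : ℂ) * I) *
      ∫ u, ten a (r • u) * Complex.exp (-((⟪r • u, ξ⟫ : ℝ) : ℂ) * I) ∂(sg m) := by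
    rw [← integral_const_mul]
    refine integral_congr_ae ?_
    filter_upwards [Pool.Agent.H789R2.FR.sg_ae m] with u hu
    unfold FF
    rw [norm_smul, hu, mul_one, Real.norm_of_nonneg hr0.le]
    have : Complex.exp (((l * r ^ 2 - ⟪r • u, ξ⟫ : ℝ) : ℂ) * I) =
        Complex.exp (((l * r ^ 2 : ℝ) : ℂ) * I) *
          Complex.exp (-((⟪r • u, ξ⟫ : ℝ) : ℂ) * I) := by
      rw [← Complex.exp_add]
      congr 1
      push_cast
      ring
    rw [this]
    ring
  rw [e1]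
  have e2 : r ^ (2 : ℝ) = r ^ 2 := Real.rpow_two r
  rw [e2]
  unfold hh
  rw [Real.sqrt_sq hr0.le]
  have e3 : (r ^ 2) ^ (((m : ℝ) - 2) / 2) = r ^ (m - 2) := by
    rw [← Real.rpow_natCast (n := 2), ← Real.rpow_mul hr0.le, ← Real.rpow_natCast]
    congr 1
    rw [Nat.cast_sub hm]
    push_cast
    ring
  rw [e3]
  have e4 : r ^ (m - 1) = r ^ (m - 2) * r := by
    rw [← pow_succ]
    congr 1
    omega
  rw [e4, abs_of_pos (by norm_num : (0 : ℝ) < 2)]
  have e5 : r ^ ((2 : ℝ) - 1) = r := by norm_num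
  rw [e5, Complex.real_smul]
  push_cast
  ring_nf

end A6

theorem push {m : ℕ} (hm : 2 ≤ m) (a : Fin m → ℝ → ℂ) (M : ℝ) (ha : ∀ j, Measurable (a j))
    (hM : ∀ j u, ‖a j u‖ ≤ M) (hs : ∀ j u, u ∉ Ioo (-1 : ℝ) 1 → a j u = 0) (ξ : E m) :
    ∫⁻ w in Ioi (0 : ℝ), ENNReal.ofReal (‖hh a ξ w‖ ^ 2) ≤
      ∫⁻ l, ENNReal.ofReal (∏ j, ‖E1 (a j) (ξ j) l‖ ^ 2) := by
  obtain ⟨K, hK0, hK, hz⟩ := hh_bdd hm a M ha hM hs ξ
  set H : ℝ → ℂ := (Ioc (0 : ℝ) m).indicator (hh a ξ) with hH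
  have hHI : (Ioi (0 : ℝ)).indicator (hh a ξ) = H := by
    funext w
    rw [hH]
    by_cases h1 : w ∈ Ioc (0 : ℝ) m
    · rw [indicator_of_mem h1, indicator_of_mem (mem_Ioi.2 h1.1)]
    · rw [indicator_of_notMem h1]
      by_cases h2 : w ∈ Ioi (0 : ℝ)
      · rw [indicator_of_mem h2]
        apply hz
        by_contra h3
        push Not at h3
        exact h1 ⟨h2, h3.le⟩
      · rw [indicator_of_notMem h2]
  have hb : ∀ w ∈ Ioc (0 : ℝ) m, ‖hh a ξ w‖ ≤ K := fun w hw => hK w hw.1.le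
  have hm1 : Integrable H := by
    rw [hH, integrable_indicator_iff measurableSet_Ioc]
    refine Measure.integrableOn_of_bounded (M := K) (by simp)
      (hh_meas a ha ξ).aestronglyMeasurable ?_
    filter_upwards [ae_restrict_mem measurableSet_Ioc] with w hw
    exact hb w hw
  have hm2 : MemLp H 2 := by
    rw [hH, memLp_indicator_iff_restrict measurableSet_Ioc]
    refine MemLp.of_bound (hh_meas a ha ξ).aestronglyMeasurable K ?_
    filter_upwards [ae_restrict_mem measurableSet_Ioc] with w hw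
    exact hb w hw
  obtain ⟨hp1, hp2⟩ := Pool.Agent.Helper390.Covario.plancherel hm1 hm2
  have hF : ∀ τ : ℝ, 𝓕 H τ = ∏ j, E1 (a j) (ξ j) (-2 * Real.pi * τ) := by
    intro τ
    rw [A6.prod_eq hm a M ha hM hs, Real.fourier_eq', ← integral_indicator measurableSet_Ioi]
    refine integral_congr_ae (Filter.Eventually.of_forall fun v => ?_)
    simp only
    rw [← hHI]
    by_cases hv : v ∈ Ioi (0 : ℝ)
    · rw [indicator_of_mem hv, indicator_of_mem hv, smul_eq_mul, mul_comm]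
      congr 3
      simp only [RCLike.inner_apply, conj_trivial]
      ring_nf
    · rw [indicator_of_notMem hv, indicator_of_notMem hv, smul_zero]
  have h1 : ∫⁻ w in Ioi (0 : ℝ), ENNReal.ofReal (‖hh a ξ w‖ ^ 2) =
      ENNReal.ofReal (∫ w, ‖H w‖ ^ 2) := by
    rw [ofReal_integral_eq_lintegral_ofReal ((memLp_two_iff_integrable_sq_norm hm2.1).1 hm2) (by
      exact Filter.Eventually.of_forall fun w => by positivity),
      ← lintegral_indicator measurableSet_Ioi]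
    refine lintegral_congr fun w => ?_
    rw [← hHI]
    by_cases hv : w ∈ Ioi (0 : ℝ)
    · rw [indicator_of_mem hv, indicator_of_mem hv]
    · rw [indicator_of_notMem hv, indicator_of_notMem hv]
      simp
  set G : ℝ → ℝ≥0∞ := fun l => ENNReal.ofReal (∏ j, ‖E1 (a j) (ξ j) l‖ ^ 2) with hG
  have h2 : ENNReal.ofReal (∫ τ, ‖𝓕 H τ‖ ^ 2) = ∫⁻ τ, G ((-2 * Real.pi) * τ) := by
    rw [ofReal_integral_eq_lintegral_ofReal ((memLp_two_iff_integrable_sq_norm hp1.1).1 hp1) (by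
      exact Filter.Eventually.of_forall fun w => by positivity)]
    refine lintegral_congr fun τ => ?_
    rw [hF τ, hG]
    simp only
    rw [norm_prod, Finset.prod_pow]
  have h3 : (-2 * Real.pi : ℝ) ≠ 0 := by
    have := Real.pi_pos
    nlinarith
  rw [h1, ← hp2, h2, ← (measurableEmbedding_mulLeft₀ h3).lintegral_map,
    Real.map_volume_mul_left h3, lintegral_smul_measure, smul_eq_mul]
  calc ENNReal.ofReal |(-2 * Real.pi)⁻¹| * ∫⁻ l, G l ≤ 1 * ∫⁻ l, G l := by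
        gcongr
        rw [ENNReal.ofReal_le_one, abs_inv]
        apply inv_le_one_of_one_le₀
        rw [abs_mul, abs_of_pos Real.pi_pos]
        norm_num
        nlinarith [Real.pi_gt_three]
    _ = ∫⁻ l, G l := one_mul _

end Pool.Agent.H438R2.PD
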