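import Pool.Agent.H438R2.PD.Defs
import Pool.Agent.Helper390.CovarioA
set_option autoImplicit false

/-! # Product densities on the sphere, task A7: the profile bound -/

namespace Pool.Agent.H438R2.PD

open MeasureTheory Set Complex
open scoped ENNReal RealInnerProductSpace FourierTransform
open Pool.Agent.H789R2.FR (E sg)

namespace A7

/-- the function whose Fourier transform is taken -/
noncomputable def ff {d : ℕ} (h : ℝ → ℂ) (b : E d → ℂ) : E d → ℂ :=
  (Metric.ball (0 : E d) 1).indicator fun y => 2 * h (1 - ‖y‖ ^ 2) * b y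

/-- the substitution `w = 1 - r ^ 2` -/
theorem subst (g : ℝ → ℝ) : ∫ w in Ioo (0 : ℝ) 1, g w = ∫ r in Ioo (0 : ℝ) 1, 2 * r * g (1 - r ^ 2) := by
  have himg : (fun r : ℝ => 1 - r ^ 2) '' Ioo (0 : ℝ) 1 = Ioo (0 : ℝ) 1 := by
    ext w
    constructor
    · rintro ⟨r, ⟨h0, h1⟩, rfl⟩
      constructor
      · show 0 < 1 - r ^ 2
        nlinarith
      · show 1 - r ^ 2 < 1
        nlinarith [sq_pos_of_pos h0]
    · rintro ⟨h0, h1⟩
      refine ⟨Real.sqrt (1 - w), ⟨Real.sqrt_pos.2 (by linarith), ?_⟩, ?_⟩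
      · rw [Real.sqrt_lt' one_pos]
        linarith
      · show 1 - Real.sqrt (1 - w) ^ 2 = w
        rw [Real.sq_sqrt (by linarith)]
        ring
  have hinj : InjOn (fun r : ℝ => 1 - r ^ 2) (Ioo (0 : ℝ) 1) := by
    intro a ha b hb hab
    have h1 : a ^ 2 = b ^ 2 := by
      have : 1 - a ^ 2 = 1 - b ^ 2 := hab
      linarith
    exact (sq_eq_sq₀ ha.1.le hb.1.le).1 h1
  have key := integral_image_eq_integral_abs_deriv_smul (s := Ioo (0 : ℝ) 1)
    (f := fun r : ℝ => 1 - r ^ 2) (f' := fun r => -(2 * r)) measurableSet_Ioo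
    (fun x _ => by
      have := ((hasDerivAt_pow 2 x).const_sub 1).hasDerivWithinAt (s := Ioo (0 : ℝ) 1)
      simpa using this) hinj g
  rw [himg] at key
  rw [key]
  refine setIntegral_congr_fun measurableSet_Ioo fun r hr => ?_
  show |-(2 * r)| • g (1 - r ^ 2) = 2 * r * g (1 - r ^ 2)
  rw [abs_neg, abs_of_pos (by have := hr.1; linarith), smul_eq_mul]

variable {d : ℕ}

theorem meas_ff {h : ℝ → ℂ} {b : E d → ℂ} (hh : Measurable h) (hb : Measurable b) :
    Measurable (ff h b) := by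
  unfold ff
  refine Measurable.indicator ?_ Metric.isOpen_ball.measurableSet
  have : Measurable fun y : E d => 1 - ‖y‖ ^ 2 := by fun_prop
  exact ((hh.comp this).const_mul 2).mul hb

theorem bdd_ff {h : ℝ → ℂ} {b : E d → ℂ} {K K' : ℝ} (hK : ∀ w, ‖h w‖ ≤ K)
    (hK' : ∀ y, ‖b y‖ ≤ K') (y : E d) : ‖ff h b y‖ ≤ 2 * K * K' := by
  have h0 : 0 ≤ K := (norm_nonneg _).trans (hK 0)
  have h1 : 0 ≤ K' := (norm_nonneg _).trans (hK' 0)
  unfold ff
  by_cases hy : y ∈ Metric.ball (0 : E d) 1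
  · rw [indicator_of_mem hy, norm_mul, norm_mul]
    have : ‖(2 : ℂ)‖ = 2 := by simp
    rw [this]
    exact mul_le_mul (mul_le_mul_of_nonneg_left (hK _) (by norm_num)) (hK' _) (norm_nonneg _)
      (by positivity)
  · rw [indicator_of_notMem hy, norm_zero]
    positivity

theorem supp_ff {h : ℝ → ℂ} {b : E d → ℂ} {y : E d} (hy : y ∉ Metric.ball (0 : E d) 1) :
    ff h b y = 0 := indicator_of_notMem hy _

theorem ball_fin : volume (Metric.ball (0 : E d) 1) ≠ ⊤ := measure_ball_lt_top.ne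

/-- bounded measurable functions vanishing outside of the ball are integrable -/
theorem int_of_bdd {F : Type*} [NormedAddCommGroup F] {u : E d → F}
    (hu : AEStronglyMeasurable u volume) {M : ℝ} (hM : ∀ y, ‖u y‖ ≤ M)
    (h0 : ∀ y, y ∉ Metric.ball (0 : E d) 1 → u y = 0) : Integrable u := by
  rw [← integrableOn_iff_integrable_of_support_subset (s := Metric.ball (0 : E d) 1)
    (fun y hy => by_contra fun h => hy (h0 y h))]
  exact Measure.integrableOn_of_bounded ball_fin hu (Filter.Eventually.of_forall hM)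

/-- the radial integral -/
theorem radial (hd : 1 ≤ d) {h : ℝ → ℂ} {b : E d → ℂ} {L K K' : ℝ} (hh : Measurable h)
    (hb : Measurable b) (hK : ∀ w, ‖h w‖ ≤ K) (hK' : ∀ y, ‖b y‖ ≤ K')
    (hL : ∀ y : E d, ‖y‖ < 1 → ‖b y‖ ^ 2 * ‖y‖ ^ (d - 1) ≤ L * ‖y‖) :
    ∫ y, ‖ff h b y‖ ^ 2 ≤ 2 * d * volume.real (Metric.ball (0 : E d) 1) *
      (L * ∫ w in Ioo (0 : ℝ) 1, ‖h w‖ ^ 2) := by
  haveI : Nonempty (Fin d) := ⟨⟨0, hd⟩⟩
  haveI : Nontrivial (E d) := by
    refine ⟨⟨EuclideanSpace.single ⟨0, hd⟩ 1, 0, ?_⟩⟩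
    intro h0
    have := congrArg norm h0
    simp at this
  have hfin : Module.finrank ℝ (E d) = d := finrank_euclideanSpace_fin
  set φ : ℝ → ℝ := fun r => (Iio (1 : ℝ)).indicator
    (fun r => 4 * ‖h (1 - r ^ 2)‖ ^ 2 * (L * r) * (r ^ (d - 1))⁻¹) r with hφ
  have e1 : ∀ r ∈ Ioi (0 : ℝ), r ^ (Module.finrank ℝ (E d) - 1) • φ r =
      (Ioo (0 : ℝ) 1).indicator (fun r => 2 * L * (2 * r * ‖h (1 - r ^ 2)‖ ^ 2)) r := by
    intro r hr
    have hr0 : (0 : ℝ) < r := hr
    rw [hfin]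
    by_cases h1 : r < 1
    · have m1 : r ∈ Iio (1 : ℝ) := h1
      have m2 : r ∈ Ioo (0 : ℝ) 1 := ⟨hr, h1⟩
      simp only [hφ]
      rw [indicator_of_mem m1, indicator_of_mem m2, smul_eq_mul]
      have : r ^ (d - 1) ≠ 0 := pow_ne_zero _ hr0.ne'
      field_simp
      ring
    · have m1 : r ∉ Iio (1 : ℝ) := h1
      have m2 : r ∉ Ioo (0 : ℝ) 1 := fun h => h1 h.2
      simp only [hφ]
      rw [indicator_of_notMem m1, indicator_of_notMem m2, smul_zero]
  have hmeas : Measurable fun r : ℝ => 2 * L * (2 * r * ‖h (1 - r ^ 2)‖ ^ 2) := by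
    have : Measurable fun r : ℝ => 1 - r ^ 2 := by fun_prop
    have h2 := (hh.comp this).norm
    fun_prop
  have hint1 : IntegrableOn (fun r : ℝ => 2 * L * (2 * r * ‖h (1 - r ^ 2)‖ ^ 2)) (Ioo (0 : ℝ) 1) := by
    refine Measure.integrableOn_of_bounded (M := |2 * L| * (2 * 1 * K ^ 2)) (by simp)
      hmeas.aestronglyMeasurable ?_
    rw [ae_restrict_iff' measurableSet_Ioo]
    refine Filter.Eventually.of_forall fun r hr => ?_
    rw [Real.norm_eq_abs, abs_mul (2 * L), abs_mul (2 * r)]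
    refine mul_le_mul_of_nonneg_left ?_ (abs_nonneg _)
    refine mul_le_mul ?_ ?_ (abs_nonneg _) (by norm_num)
    · rw [abs_of_pos (by have := hr.1; linarith)]
      linarith [hr.2]
    · rw [abs_of_nonneg (by positivity)]
      exact pow_le_pow_left₀ (norm_nonneg _) (hK _) 2
  have hint2 : Integrable (fun y : E d => φ ‖y‖) := by
    rw [integrable_fun_norm_addHaar]
    rw [integrableOn_congr_fun e1 measurableSet_Ioi]
    rw [← integrable_indicator_iff measurableSet_Ioo] at hint1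
    exact hint1.integrableOn
  have hle : ∫ y, ‖ff h b y‖ ^ 2 ≤ ∫ y : E d, φ ‖y‖ := by
    refine integral_mono_ae ?_ hint2 ?_
    · refine int_of_bdd (M := (2 * K * K') ^ 2) ((meas_ff hh hb).norm.pow_const 2).aestronglyMeasurable
        (fun y => ?_) (fun y hy => ?_)
      · rw [Real.norm_eq_abs, abs_of_nonneg (by positivity)]
        exact pow_le_pow_left₀ (norm_nonneg _) (bdd_ff hK hK' y) 2
      · rw [supp_ff hy]; simp
    · have hne : ∀ᵐ y : E d, y ≠ 0 := by
        have : volume ({0} : Set (E d)) = 0 := measure_singleton 0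
        exact compl_mem_ae_iff.2 this
      filter_upwards [hne] with y hy
      have hy0 : 0 < ‖y‖ := norm_pos_iff.2 hy
      by_cases h1 : ‖y‖ < 1
      · have m1 : ‖y‖ ∈ Iio (1 : ℝ) := h1
        have m2 : y ∈ Metric.ball (0 : E d) 1 := by simpa using h1
        simp only [hφ]
        rw [indicator_of_mem m1]
        unfold ff
        rw [indicator_of_mem m2, norm_mul, norm_mul, mul_pow, mul_pow]
        have h2 : ‖(2 : ℂ)‖ = 2 := by simp
        rw [h2]
        have hp : 0 < ‖y‖ ^ (d - 1) := pow_pos hy0 _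
        have h3 : ‖b y‖ ^ 2 ≤ L * ‖y‖ * (‖y‖ ^ (d - 1))⁻¹ := by
          rw [← div_eq_mul_inv, le_div_iff₀ hp]
          exact hL y h1
        calc 2 ^ 2 * ‖h (1 - ‖y‖ ^ 2)‖ ^ 2 * ‖b y‖ ^ 2
            ≤ 2 ^ 2 * ‖h (1 - ‖y‖ ^ 2)‖ ^ 2 * (L * ‖y‖ * (‖y‖ ^ (d - 1))⁻¹) :=
              mul_le_mul_of_nonneg_left h3 (by positivity)
          _ = _ := by ring
      · have m1 : ‖y‖ ∉ Iio (1 : ℝ) := h1
        have m2 : y ∉ Metric.ball (0 : E d) 1 := by simpa using h1
        simp only [hφ]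
        rw [indicator_of_notMem m1, supp_ff m2]
        simp
  refine hle.trans (le_of_eq ?_)
  rw [integral_fun_norm_addHaar, setIntegral_congr_fun measurableSet_Ioi e1,
    setIntegral_indicator measurableSet_Ioo, hfin]
  have e2 : Ioi (0 : ℝ) ∩ Ioo 0 1 = Ioo 0 1 := by
    ext r; simp only [mem_inter_iff, mem_Ioi, mem_Ioo]; tauto
  rw [e2, integral_const_mul, ← subst (fun w => ‖h w‖ ^ 2), nsmul_eq_mul, smul_eq_mul]
  ring

/-- the transform is a Fourier transform -/
theorem fourier_eq {h : ℝ → ℂ} {b : E d → ℂ} (ζ : E d) :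
    ∫ y in Metric.ball (0 : E d) 1, 2 * h (1 - ‖y‖ ^ 2) * b y *
      Complex.exp (-((⟪y, ζ⟫ : ℝ) : ℂ) * I) = 𝓕 (ff h b) ((2 * Real.pi)⁻¹ • ζ) := by
  rw [Real.fourier_eq', ← integral_indicator Metric.isOpen_ball.measurableSet]
  refine integral_congr_ae (Filter.Eventually.of_forall fun y => ?_)
  have e1 : -2 * Real.pi * ⟪y, (2 * Real.pi)⁻¹ • ζ⟫ = -⟪y, ζ⟫ := by
    rw [inner_smul_right]
    have := Real.pi_ne_zero
    field_simp
  simp only
  rw [e1]
  by_cases hy : y ∈ Metric.ball (0 : E d) 1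
  · rw [indicator_of_mem hy, ff, indicator_of_mem hy, smul_eq_mul, mul_comm]
    push_cast
    rfl
  · rw [indicator_of_notMem hy, supp_ff hy, smul_zero]

/-- Cauchy-Schwarz on the ball -/
theorem cs {u : E d → ℝ} (hu : Integrable u) (hu2 : Integrable fun y => u y ^ 2)
    (h0 : ∀ y, y ∉ Metric.ball (0 : E d) 1 → u y = 0) :
    (∫ y, u y) ^ 2 ≤ volume.real (Metric.ball (0 : E d) 1) * ∫ y, u y ^ 2 := by
  set B := Metric.ball (0 : E d) 1 with hB
  have hBm : MeasurableSet B := Metric.isOpen_ball.measurableSet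
  have hvpos : 0 < volume.real B := by
    rw [measureReal_def]
    exact ENNReal.toReal_pos (Metric.measure_ball_pos volume 0 one_pos).ne' ball_fin
  have e1 : ∫ y, u y = ∫ y in B, u y :=
    (setIntegral_eq_integral_of_forall_compl_eq_zero fun y hy => h0 y hy).symm
  have e2 : ∫ y, u y ^ 2 = ∫ y in B, u y ^ 2 :=
    (setIntegral_eq_integral_of_forall_compl_eq_zero fun y hy => by rw [h0 y hy]; simp).symm
  set c := (∫ y, u y) / volume.real B with hc
  have hnn : 0 ≤ ∫ y in B, (u y - c) ^ 2 := integral_nonneg fun y => sq_nonneg _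
  have e3 : ∫ y in B, (u y - c) ^ 2 = (∫ y, u y ^ 2) - 2 * c * (∫ y, u y) + c ^ 2 * volume.real B := by
    have e4 : ∀ y, (u y - c) ^ 2 = u y ^ 2 - 2 * c * u y + c ^ 2 := fun y => by ring
    have i1 : IntegrableOn (fun y => u y ^ 2) B := hu2.integrableOn
    have i2 : IntegrableOn (fun y => 2 * c * u y) B := (hu.const_mul _).integrableOn
    have i3 : IntegrableOn (fun _ : E d => c ^ 2) B := by
      rw [integrableOn_const_iff]
      exact Or.inr measure_ball_lt_top
    simp only [e4]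
    have j1 : ∫ y in B, (u y ^ 2 - 2 * c * u y + c ^ 2) =
        (∫ y in B, (u y ^ 2 - 2 * c * u y)) + ∫ _y in B, c ^ 2 := integral_add (i1.sub i2) i3
    have j2 : ∫ y in B, (u y ^ 2 - 2 * c * u y) = (∫ y in B, u y ^ 2) - ∫ y in B, 2 * c * u y :=
      integral_sub i1 i2
    rw [j1, j2, integral_const_mul, ← e1, ← e2]
    simp only [integral_const, measureReal_restrict_apply_univ, smul_eq_mul]
    ring
  rw [e3] at hnn
  have e5 : c * volume.real B = ∫ y, u y := by
    rw [hc, div_mul_cancel₀ _ hvpos.ne']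
  have e6 : (∫ y, u y) ^ 2 = volume.real B * (c * (∫ y, u y)) := by
    rw [← e5]; ring
  rw [e6]
  refine mul_le_mul_of_nonneg_left ?_ hvpos.le
  have e7 : c ^ 2 * volume.real B = c * ∫ y, u y := by rw [← e5]; ring
  rw [e7] at hnn
  linarith

end A7

/-! ## A7: the profile bound -/
theorem profile (d : ℕ) (hd : 1 ≤ d) (p : ℝ) (hp : 2 ≤ p) : ∃ C : ℝ, 0 < C ∧
    ∀ (h : ℝ → ℂ) (b : E d → ℂ) (L : ℝ), Measurable h → Measurable b →
    (∃ K : ℝ, ∀ w, ‖h w‖ ≤ K) → (∃ K : ℝ, ∀ y, ‖b y‖ ≤ K) →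
    (∀ y, ‖y‖ < 1 → ‖b y‖ ^ 2 * ‖y‖ ^ (d - 1) ≤ L * ‖y‖) →
    ∫⁻ ζ : E d, ENNReal.ofReal (‖∫ y in Metric.ball (0 : E d) 1, 2 * h (1 - ‖y‖ ^ 2) * b y *
      Complex.exp (-((⟪y, ζ⟫ : ℝ) : ℂ) * I)‖ ^ p) ≤
      (ENNReal.ofReal (C * L) * ∫⁻ w in Ioo (0 : ℝ) 1, ENNReal.ofReal (‖h w‖ ^ 2)) ^ (p / 2) := by
  set vB := volume.real (Metric.ball (0 : E d) 1) with hvB
  have hvpos : 0 < vB := by
    rw [hvB, measureReal_def]
    exact ENNReal.toReal_pos (Metric.measure_ball_pos volume 0 one_pos).ne' A7.ball_fin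
  have hd0 : (0 : ℝ) < d := by exact_mod_cast hd
  set C' := max vB ((2 * Real.pi) ^ d) with hC'
  have hC'0 : 0 < C' := lt_max_of_lt_left hvpos
  refine ⟨C' * (2 * d * vB), by positivity, ?_⟩
  rintro h b L hh hb ⟨K, hK⟩ ⟨K', hK'⟩ hL
  haveI : Nonempty (Fin d) := ⟨⟨0, hd⟩⟩
  have hL0 : 0 ≤ L := by
    have h1 := hL (EuclideanSpace.single ⟨0, hd⟩ (1 / 2)) (by
      rw [EuclideanSpace.norm_single]; norm_num)
    rw [EuclideanSpace.norm_single] at h1
    have h2 : 0 ≤ L * ‖(1 / 2 : ℝ)‖ := le_trans (by positivity) h1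
    rw [Real.norm_eq_abs, abs_of_pos (by norm_num : (0 : ℝ) < 1 / 2)] at h2
    linarith
  set f := A7.ff h b with hf
  have hfm : Measurable f := A7.meas_ff hh hb
  have hf1 : Integrable f := A7.int_of_bdd hfm.aestronglyMeasurable (A7.bdd_ff hK hK')
    fun y hy => A7.supp_ff hy
  have hf2 : Integrable fun y => ‖f y‖ ^ 2 := by
    refine A7.int_of_bdd (M := (2 * K * K') ^ 2) (hfm.norm.pow_const 2).aestronglyMeasurable
      (fun y => ?_) (fun y hy => ?_)
    · rw [Real.norm_eq_abs, abs_of_nonneg (by positivity)]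
      exact pow_le_pow_left₀ (norm_nonneg _) (A7.bdd_ff hK hK' y) 2
    · rw [hf, A7.supp_ff hy]; simp
  have hfL2 : MemLp f 2 := (memLp_two_iff_integrable_sq_norm hfm.aestronglyMeasurable).2 hf2
  obtain ⟨hF2, hFn⟩ := Pool.Agent.Helper390.Covario.plancherel hf1 hfL2
  have hFi : Integrable fun ξ => ‖𝓕 f ξ‖ ^ 2 :=
    (memLp_two_iff_integrable_sq_norm hF2.1).1 hF2
  set S := ∫ y, ‖f y‖ ^ 2 with hS
  have hS0 : 0 ≤ S := integral_nonneg fun y => by positivity
  have hrad := A7.radial hd hh hb hK hK' hL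
  rw [← hf, ← hS] at hrad
  set Hh := ∫ w in Ioo (0 : ℝ) 1, ‖h w‖ ^ 2 with hHh
  have hHh0 : 0 ≤ Hh := integral_nonneg fun y => by positivity
  -- the pointwise bound
  have hsup : ∀ ξ, ‖𝓕 f ξ‖ ^ 2 ≤ vB * S := by
    intro ξ
    have h1 : ‖𝓕 f ξ‖ ≤ ∫ y, ‖f y‖ := by
      rw [Real.fourier_eq']
      refine (norm_integral_le_integral_norm _).trans (le_of_eq ?_)
      refine integral_congr_ae (Filter.Eventually.of_forall fun y => ?_)
      simp only [norm_smul]
      rw [Complex.norm_exp_ofReal_mul_I, one_mul]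
    have h2 := A7.cs (u := fun y => ‖f y‖) hf1.norm hf2 (fun y hy => by
      rw [hf, A7.supp_ff hy, norm_zero])
    exact (pow_le_pow_left₀ (norm_nonneg _) h1 2).trans h2
  have hpi : (0 : ℝ) < 2 * Real.pi := by positivity
  simp only [A7.fourier_eq]
  rw [← hf]
  set g : E d → ℝ := fun ζ => ‖𝓕 f ((2 * Real.pi)⁻¹ • ζ)‖ with hg
  have hgi : Integrable fun ζ => g ζ ^ 2 := by
    have := hFi.comp_smul (R := (2 * Real.pi)⁻¹) (inv_ne_zero hpi.ne')
    exact this
  have hgint : ∫ ζ, g ζ ^ 2 = (2 * Real.pi) ^ d * S := by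
    have h1 := Measure.integral_comp_smul (volume : Measure (E d)) (fun ξ => ‖𝓕 f ξ‖ ^ 2)
      (2 * Real.pi)⁻¹
    rw [finrank_euclideanSpace_fin, hFn] at h1
    simp only [hg]
    rw [h1, smul_eq_mul, inv_pow, inv_inv, abs_of_pos (by positivity)]
  -- the main inequality
  have hpt : ∀ ζ, g ζ ^ p ≤ (vB * S) ^ ((p - 2) / 2) * g ζ ^ 2 := by
    intro ζ
    have hg0 : 0 ≤ g ζ := norm_nonneg _
    rcases hg0.eq_or_lt with h0 | h0
    · rw [← h0, Real.zero_rpow (by linarith)]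
      positivity
    · have h1 : g ζ ^ p = (g ζ ^ 2) ^ ((p - 2) / 2) * g ζ ^ 2 := by
        rw [← Real.rpow_natCast, ← Real.rpow_mul hg0, ← Real.rpow_add h0]
        congr 1
        push_cast
        ring
      rw [h1]
      refine mul_le_mul_of_nonneg_right ?_ (by positivity)
      exact Real.rpow_le_rpow (by positivity) (hsup _) (by linarith)
  have hlin : ∫⁻ ζ, ENNReal.ofReal (g ζ ^ p) ≤
      ENNReal.ofReal ((vB * S) ^ ((p - 2) / 2) * ((2 * Real.pi) ^ d * S)) := by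
    refine (lintegral_mono fun ζ => ENNReal.ofReal_le_ofReal (hpt ζ)).trans (le_of_eq ?_)
    rw [← ofReal_integral_eq_lintegral_ofReal (hgi.const_mul _)
      (Filter.Eventually.of_forall fun ζ => by positivity), integral_const_mul, hgint]
  refine hlin.trans ?_
  have hHlin : ∫⁻ w in Ioo (0 : ℝ) 1, ENNReal.ofReal (‖h w‖ ^ 2) = ENNReal.ofReal Hh := by
    rw [hHh, ofReal_integral_eq_lintegral_ofReal]
    · refine Measure.integrableOn_of_bounded (M := K ^ 2) (by simp)
        (hh.norm.pow_const 2).aestronglyMeasurable (Filter.Eventually.of_forall fun w => ?_)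
      rw [Real.norm_eq_abs, abs_of_nonneg (by positivity)]
      exact pow_le_pow_left₀ (norm_nonneg _) (hK w) 2
    · exact Filter.Eventually.of_forall fun w => by positivity
  rw [hHlin, ← ENNReal.ofReal_mul (by positivity), ENNReal.ofReal_rpow_of_nonneg (by positivity)
    (by linarith)]
  refine ENNReal.ofReal_le_ofReal ?_
  have hCS : C' * S ≤ C' * (2 * d * vB) * L * Hh := by
    calc C' * S ≤ C' * (2 * d * vB * (L * Hh)) := mul_le_mul_of_nonneg_left hrad hC'0.le
      _ = _ := by ring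
  have hCS0 : 0 ≤ C' * S := by positivity
  calc (vB * S) ^ ((p - 2) / 2) * ((2 * Real.pi) ^ d * S)
      ≤ (C' * S) ^ ((p - 2) / 2) * (C' * S) := by
        refine mul_le_mul ?_ ?_ (by positivity) (by positivity)
        · exact Real.rpow_le_rpow (by positivity)
            (mul_le_mul_of_nonneg_right (le_max_left _ _) hS0) (by linarith)
        · exact mul_le_mul_of_nonneg_right (le_max_right _ _) hS0
    _ = (C' * S) ^ (p / 2) := by
        rcases hCS0.eq_or_lt with h0 | h0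
        · rw [← h0, mul_zero, Real.zero_rpow (by linarith)]
        · nth_rewrite 2 [← Real.rpow_one (C' * S)]
          rw [← Real.rpow_add h0]
          congr 1
          ring
    _ ≤ _ := Real.rpow_le_rpow hCS0 hCS (by linarith)

end Pool.Agent.H438R2.PD
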