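import Mathlib
import Pool.Agent.H438R2.PD.Core
set_option autoImplicit false

/-! Final bounds for product densities. -/

namespace Pool.Agent.H438R2.PD

open MeasureTheory Set Complex
open scoped ENNReal RealInnerProductSpace
open Pool.Agent.H789R2.FR (E sg T sg_ae sg_inv sg_finite)
open Pool.Agent.H438R2.BR (J J_mp)

theorem T_smul {n : ℕ} (r : ℂ) (g : E n → ℂ) (x : E n) :
    T (fun z => r * g z) x = r * T g x := by
  unfold T
  rw [← integral_const_mul]
  congr 1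
  ext z
  ring

theorem gp_le {m d : ℕ} (a : Fin m → ℝ → ℂ) (b : E d → ℂ) (M K : ℝ) (hM : ∀ j u, ‖a j u‖ ≤ M)
    (hK : ∀ y, ‖b y‖ ≤ K) (hM0 : 0 ≤ M) (z : E (m + d)) : ‖gp a b z‖ ≤ M ^ m * K := by
  unfold gp
  rw [norm_mul]
  exact mul_le_mul (ten_le a M hM _) (hK _) (norm_nonneg _) (by positivity)

theorem one_case (m : ℕ) (hm : 3 ≤ m) (p : ℝ) (hp : 2 * (m : ℝ) / (m - 1) < p)
    (hp2 : p < 2 * m) : ∃ C : ℝ, 0 < C ∧
    ∀ (a : Fin m → ℝ → ℂ) (b : E 1 → ℂ) (M K : ℝ),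
    (∀ j, Measurable (a j)) → Measurable b → (∀ j u, ‖a j u‖ ≤ M) → (∀ y, ‖b y‖ ≤ K) →
    ∫⁻ z, ENNReal.ofReal (‖T (gp a b) z‖ ^ p) ≤ ENNReal.ofReal (C * (M ^ m * K) ^ p) := by
  have hmr : (3 : ℝ) ≤ m := by exact_mod_cast hm
  have hp22 : 2 ≤ p := by
    rw [div_lt_iff₀ (by linarith)] at hp
    nlinarith
  obtain ⟨C, hC, h⟩ := bound_all m hm p hp hp2
  refine ⟨C, hC, ?_⟩
  intro a b M K ha hb hM hK
  have hM0 : 0 ≤ M := (norm_nonneg _).trans (hM ⟨0, by omega⟩ 0)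
  have hK0 : 0 ≤ K := (norm_nonneg _).trans (hK 0)
  rcases (mul_nonneg (pow_nonneg hM0 m) hK0).eq_or_lt with h0 | h0
  · have h1 : ∀ z, T (gp a b) z = 0 := by
      intro z
      have h2 := T_le (gp a b) (M ^ m * K) (gp_le a b M K hM hK hM0) z
      rw [← h0, zero_mul] at h2
      exact norm_le_zero_iff.1 h2
    simp only [h1, norm_zero]
    rw [Real.zero_rpow (by linarith)]
    simp
  have hMp : 0 < M := by
    rcases hM0.eq_or_lt with h1 | h1
    · rw [← h1, zero_pow (by omega), zero_mul] at h0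
      exact absurd h0 (lt_irrefl _)
    · exact h1
  have hKp : 0 < K := by
    rcases hK0.eq_or_lt with h1 | h1
    · rw [← h1, mul_zero] at h0
      exact absurd h0 (lt_irrefl _)
    · exact h1
  set r : ℝ := M / K with hr
  have hrp : 0 < r := by positivity
  set f : ℝ → ℂ := fun u => (r : ℂ) * b (WithLp.toLp 2 (fun _ => u)) with hf
  have hfm : Measurable f := by
    have h1 : Measurable fun u : ℝ => (WithLp.toLp 2 (fun _ => u) : E 1) := by fun_prop
    exact (hb.comp h1).const_mul _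
  set c : Fin (m + 1) → ℝ → ℂ := Fin.snoc (α := fun _ => ℝ → ℂ) a f with hc
  have c1 : ∀ j : Fin m, c (Fin.castSucc j) = a j := fun j => by
    rw [hc]; exact Fin.snoc_castSucc (α := fun _ => ℝ → ℂ) f a j
  have c2 : c (Fin.last m) = f := by
    rw [hc]; exact Fin.snoc_last (α := fun _ => ℝ → ℂ) f a
  have hcm : ∀ j, Measurable (c j) := by
    intro j
    refine Fin.lastCases ?_ (fun i => ?_) j
    · rw [c2]; exact hfm
    · rw [c1]; exact ha i
  have hcM : ∀ j u, ‖c j u‖ ≤ M := by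
    intro j
    refine Fin.lastCases ?_ (fun i => ?_) j
    · intro u
      rw [c2, hf]
      simp only []
      rw [norm_mul, Complex.norm_real, Real.norm_eq_abs, abs_of_pos hrp]
      calc r * _ ≤ r * K := by gcongr; exact hK _
        _ = M := by rw [hr]; field_simp
    · rw [c1]; exact hM i
  have h1 : ∀ z, T (ten c) z = (r : ℂ) * T (gp a b) z := by
    intro z
    rw [← T_smul]
    congr 1
    funext w
    rw [ten_succ]
    simp only [c1, c2]
    unfold gp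
    simp only [hf]
    have h2 : (WithLp.toLp 2 (fun _ => (P2 m 1 w) 0) : E 1) = P2 m 1 w := by
      ext i
      rw [Subsingleton.elim i 0]
    rw [h2]
    ring
  have h2 : ∀ z, ENNReal.ofReal (‖T (ten c) z‖ ^ p) =
      ENNReal.ofReal (r ^ p) * ENNReal.ofReal (‖T (gp a b) z‖ ^ p) := by
    intro z
    rw [h1, norm_mul, Complex.norm_real, Real.norm_eq_abs, abs_of_pos hrp,
      Real.mul_rpow hrp.le (norm_nonneg _), ENNReal.ofReal_mul (by positivity)]
  have h3 := h c M hcm hcM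
  simp_rw [h2] at h3
  rw [lintegral_const_mul' _ _ ENNReal.ofReal_ne_top] at h3
  have h4 : ENNReal.ofReal ((r⁻¹) ^ p) * ENNReal.ofReal (r ^ p) = 1 := by
    rw [← ENNReal.ofReal_mul (by positivity), ← Real.mul_rpow (by positivity) (by positivity),
      inv_mul_cancel₀ hrp.ne', Real.one_rpow, ENNReal.ofReal_one]
  calc ∫⁻ z, ENNReal.ofReal (‖T (gp a b) z‖ ^ p)
      = ENNReal.ofReal ((r⁻¹) ^ p) * (ENNReal.ofReal (r ^ p) *
        ∫⁻ z, ENNReal.ofReal (‖T (gp a b) z‖ ^ p)) := by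
        rw [← mul_assoc, h4, one_mul]
    _ ≤ ENNReal.ofReal ((r⁻¹) ^ p) * ENNReal.ofReal (C * (M ^ (m + 1)) ^ p) := by
        gcongr
    _ = _ := by
        rw [← ENNReal.ofReal_mul (by positivity)]
        congr 1
        have e1 : M ^ m * K = r⁻¹ * M ^ (m + 1) := by
          rw [hr]
          field_simp
          ring
        rw [e1, Real.mul_rpow (by positivity) (by positivity)]
        ring

theorem two_case (m d : ℕ) (hm : 3 ≤ m) (hd : 2 ≤ d) (p : ℝ) (hp : 2 * (m : ℝ) / (m - 1) < p)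
    (hp2 : p < 2 * m) : ∃ C : ℝ, 0 < C ∧
    ∀ (a : Fin m → ℝ → ℂ) (b : E d → ℂ) (M K : ℝ),
    (∀ j, Measurable (a j)) → Measurable b → (∀ j u, ‖a j u‖ ≤ M) → (∀ y, ‖b y‖ ≤ K) →
    ∫⁻ z, ENNReal.ofReal (‖T (gp a b) z‖ ^ p) ≤ ENNReal.ofReal (C * (M ^ m * K) ^ p) := by
  obtain ⟨C, hC, h⟩ := bound_pd' m d hm (by omega) p hp hp2
  refine ⟨C, hC, ?_⟩
  intro a b M K ha hb hM hK
  have hM0 : 0 ≤ M := (norm_nonneg _).trans (hM ⟨0, by omega⟩ 0)
  have hK0 : 0 ≤ K := (norm_nonneg _).trans (hK 0)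
  refine (h a b M K (K ^ 2) ha hb hM hK (by positivity) ?_).trans (le_of_eq ?_)
  · intro y hy
    have h1 : ‖b y‖ ^ 2 ≤ K ^ 2 := by
      have := hK y
      gcongr
    have h2 : ‖y‖ ^ (d - 1) ≤ ‖y‖ := by
      calc ‖y‖ ^ (d - 1) ≤ ‖y‖ ^ 1 :=
            pow_le_pow_of_le_one (norm_nonneg _) hy.le (by omega)
        _ = ‖y‖ := pow_one _
    exact mul_le_mul h1 h2 (by positivity) (by positivity)
  · congr 1
    rw [Real.mul_rpow (by positivity) hK0, ← Real.rpow_natCast K 2, ← Real.rpow_mul hK0,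
      show ((2 : ℕ) : ℝ) * (p / 2) = p by push_cast; ring]
    ring

theorem low_case (m d : ℕ) (hm : 3 ≤ m) (hd : 1 ≤ d) (p : ℝ) (hp : 2 * (m : ℝ) / (m - 1) < p)
    (hp2 : p < 2 * m) : ∃ C : ℝ, 0 < C ∧
    ∀ (a : Fin m → ℝ → ℂ) (b : E d → ℂ) (M K : ℝ),
    (∀ j, Measurable (a j)) → Measurable b → (∀ j u, ‖a j u‖ ≤ M) → (∀ y, ‖b y‖ ≤ K) →
    ∫⁻ z, ENNReal.ofReal (‖T (gp a b) z‖ ^ p) ≤ ENNReal.ofReal (C * (M ^ m * K) ^ p) := by
  rcases hd.eq_or_lt with h | h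
  · subst h
    exact one_case m hm p hp hp2
  · exact two_case m d hm h p hp hp2

theorem all_case (m d : ℕ) (hm : 3 ≤ m) (hd : 1 ≤ d) (p : ℝ)
    (hp : 2 * (m : ℝ) / (m - 1) < p) : ∃ C : ℝ, 0 < C ∧
    ∀ (a : Fin m → ℝ → ℂ) (b : E d → ℂ) (M K : ℝ),
    (∀ j, Measurable (a j)) → Measurable b → (∀ j u, ‖a j u‖ ≤ M) → (∀ y, ‖b y‖ ≤ K) →
    ∫⁻ z, ENNReal.ofReal (‖T (gp a b) z‖ ^ p) ≤ ENNReal.ofReal (C * (M ^ m * K) ^ p) := by
  have hmr : (3 : ℝ) ≤ m := by exact_mod_cast hm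
  rcases lt_or_ge p (2 * m) with hp2 | hp2
  · exact low_case m d hm hd p hp hp2
  have hq : 2 * (m : ℝ) / (m - 1) < 2 * m - 1 := by
    rw [div_lt_iff₀ (by linarith)]
    nlinarith
  obtain ⟨C, hC, h⟩ := low_case m d hm hd (2 * m - 1) hq (by linarith)
  set q : ℝ := 2 * m - 1 with hqd
  have hq0 : 0 < q := by rw [hqd]; linarith
  set A : ℝ := (sg (m + d)).real univ with hA
  have hA0 : 0 ≤ A := measureReal_nonneg
  refine ⟨(A + 1) ^ (p - q) * C, by positivity, ?_⟩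
  intro a b M K ha hb hM hK
  have hM0 : 0 ≤ M := (norm_nonneg _).trans (hM ⟨0, by omega⟩ 0)
  have hK0 : 0 ≤ K := (norm_nonneg _).trans (hK 0)
  set Y : ℝ := M ^ m * K with hY
  have hY0 : 0 ≤ Y := by positivity
  have hle : ∀ z, ‖T (gp a b) z‖ ≤ (A + 1) * Y := by
    intro z
    refine (T_le _ _ (gp_le a b M K hM hK hM0) z).trans ?_
    rw [← hA, ← hY]
    nlinarith
  calc ∫⁻ z, ENNReal.ofReal (‖T (gp a b) z‖ ^ p)
      ≤ ∫⁻ z, ENNReal.ofReal (((A + 1) * Y) ^ (p - q)) *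
        ENNReal.ofReal (‖T (gp a b) z‖ ^ q) := by
        apply lintegral_mono
        intro z
        change ENNReal.ofReal (‖T (gp a b) z‖ ^ p) ≤ ENNReal.ofReal (((A + 1) * Y) ^ (p - q)) *
          ENNReal.ofReal (‖T (gp a b) z‖ ^ q)
        rw [← ENNReal.ofReal_mul (by positivity)]
        apply ENNReal.ofReal_le_ofReal
        have e1 : ‖T (gp a b) z‖ ^ p = ‖T (gp a b) z‖ ^ (p - q) * ‖T (gp a b) z‖ ^ q := by
          rw [← Real.rpow_add' (norm_nonneg _) (by rw [sub_add_cancel]; linarith)]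
          congr 1
          ring
        rw [e1]
        gcongr
        · rw [hqd]; linarith
        · exact hle z
    _ = ENNReal.ofReal (((A + 1) * Y) ^ (p - q)) *
        ∫⁻ z, ENNReal.ofReal (‖T (gp a b) z‖ ^ q) :=
        lintegral_const_mul' _ _ ENNReal.ofReal_ne_top
    _ ≤ ENNReal.ofReal (((A + 1) * Y) ^ (p - q)) * ENNReal.ofReal (C * Y ^ q) := by
        gcongr
        exact h a b M K ha hb hM hK
    _ = _ := by
        rw [← ENNReal.ofReal_mul (by positivity)]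
        congr 1
        have e2 : Y ^ p = Y ^ (p - q) * Y ^ q := by
          rw [← Real.rpow_add' hY0 (by rw [sub_add_cancel]; linarith)]
          congr 1
          ring
        rw [e2, Real.mul_rpow (by positivity) hY0]
        ring

end Pool.Agent.H438R2.PD
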