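import Mathlib
import Pool.Agent.H438R2.PD.Defs
set_option autoImplicit false

namespace Pool.Agent.H438R2.PD

open MeasureTheory Set Complex
open scoped ENNReal RealInnerProductSpace
open Pool.Agent.H789R2.FR (E sg)
open Pool.Agent.H438R2.BR (J)

/-! ## A1: sup bound and pointwise decomposition -/
theorem B_sup (a : ℝ → ℂ) (M : ℝ) (ha : Measurable a) (hM : ∀ u, ‖a u‖ ≤ M) (k : ℕ) (ξ l : ℝ) :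
    ‖B a k ξ l‖ ≤ 4 * M ^ 2 * (1 / 2) ^ k := sorry

theorem B_meas (a : ℝ → ℂ) (ha : Measurable a) (k : ℕ) :
    Measurable fun q : ℝ × ℝ => B a k q.1 q.2 := sorry

theorem E1_meas (a : ℝ → ℂ) (ha : Measurable a) :
    Measurable fun q : ℝ × ℝ => E1 a q.1 q.2 := sorry

theorem E1_sq (a : ℝ → ℂ) (M : ℝ) (ha : Measurable a) (hM : ∀ u, ‖a u‖ ≤ M)
    (hs : ∀ u, u ∉ Ioo (-1 : ℝ) 1 → a u = 0) (ξ l : ℝ) :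
    ENNReal.ofReal (‖E1 a ξ l‖ ^ 2) ≤ ∑' k, ENNReal.ofReal ‖B a k ξ l‖ := sorry

/-! ## A2: the L2 bound of the pieces -/
theorem B_l2 : ∃ C : ℝ, 0 < C ∧ ∀ (a : ℝ → ℂ) (M : ℝ), Measurable a → (∀ u, ‖a u‖ ≤ M) →
    ∀ k : ℕ, ∫⁻ l, ∫⁻ ξ, ENNReal.ofReal (‖B a k ξ l‖ ^ 2) ≤ ENNReal.ofReal (C * M ^ 4) := sorry

/-! ## A3: the extension theorem for the parabola -/
theorem planar_parabola (P : ℝ) (hP : 4 < P) : ∃ C : ℝ, 0 < C ∧ ∀ (a : ℝ → ℂ) (M : ℝ),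
    Measurable a → (∀ u, ‖a u‖ ≤ M) →
    ∫⁻ l, ∫⁻ ξ, ENNReal.ofReal (‖E1 a ξ l‖ ^ P) ≤ ENNReal.ofReal (C * M ^ P) := sorry

/-! ## A4: the mixed norm bound -/
theorem mixed (m : ℕ) (hm : 3 ≤ m) (p : ℝ) (hp : 2 * (m : ℝ) / (m - 1) < p) (hp2 : p < 2 * m) :
    ∃ C : ℝ, 0 < C ∧ ∀ (a : ℝ → ℂ) (M : ℝ), Measurable a → (∀ u, ‖a u‖ ≤ M) →
    ∫⁻ l, (∫⁻ ξ, ENNReal.ofReal (‖E1 a ξ l‖ ^ p)) ^ (2 * (m : ℝ) / p) ≤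
      ENNReal.ofReal (C * M ^ (2 * m)) := sorry

/-! ## A5: tensor products -/
theorem tensor (m : ℕ) (hm : 3 ≤ m) (p : ℝ) (hp : 2 * (m : ℝ) / (m - 1) < p) (hp2 : p < 2 * m) :
    ∃ C : ℝ, 0 < C ∧ ∀ (a : Fin m → ℝ → ℂ) (M : ℝ), (∀ j, Measurable (a j)) →
    (∀ j u, ‖a j u‖ ≤ M) →
    ∫⁻ ξ : E m, (∫⁻ l, ENNReal.ofReal (∏ j, ‖E1 (a j) (ξ j) l‖ ^ 2)) ^ (p / 2) ≤
      ENNReal.ofReal (C * (M ^ m) ^ p) := sorry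

/-! ## A6: image under `x ↦ |x|^2` and Plancherel -/
theorem hh_meas {m : ℕ} (a : Fin m → ℝ → ℂ) (ha : ∀ j, Measurable (a j)) (ξ : E m) :
    Measurable (hh a ξ) := sorry

theorem hh_bdd {m : ℕ} (hm : 2 ≤ m) (a : Fin m → ℝ → ℂ) (M : ℝ) (ha : ∀ j, Measurable (a j))
    (hM : ∀ j u, ‖a j u‖ ≤ M) (hs : ∀ j u, u ∉ Ioo (-1 : ℝ) 1 → a j u = 0) (ξ : E m) :
    ∃ K : ℝ, ∀ w, ‖hh a ξ w‖ ≤ K := sorry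

theorem push {m : ℕ} (hm : 2 ≤ m) (a : Fin m → ℝ → ℂ) (M : ℝ) (ha : ∀ j, Measurable (a j))
    (hM : ∀ j u, ‖a j u‖ ≤ M) (hs : ∀ j u, u ∉ Ioo (-1 : ℝ) 1 → a j u = 0) (ξ : E m) :
    ∫⁻ w in Ioi (0 : ℝ), ENNReal.ofReal (‖hh a ξ w‖ ^ 2) ≤
      ∫⁻ l, ENNReal.ofReal (∏ j, ‖E1 (a j) (ξ j) l‖ ^ 2) := sorry

/-! ## A7: the profile bound -/
theorem profile (d : ℕ) (hd : 1 ≤ d) (p : ℝ) (hp : 2 ≤ p) : ∃ C : ℝ, 0 < C ∧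
    ∀ (h : ℝ → ℂ) (b : E d → ℂ) (L : ℝ), Measurable h → Measurable b →
    (∃ K : ℝ, ∀ w, ‖h w‖ ≤ K) → (∃ K : ℝ, ∀ y, ‖b y‖ ≤ K) →
    (∀ y, ‖y‖ < 1 → ‖b y‖ ^ 2 * ‖y‖ ^ (d - 1) ≤ L * ‖y‖) →
    ∫⁻ ζ : E d, ENNReal.ofReal (‖∫ y in Metric.ball (0 : E d) 1, 2 * h (1 - ‖y‖ ^ 2) * b y *
      Complex.exp (-((⟪y, ζ⟫ : ℝ) : ℂ) * I)‖ ^ p) ≤
      (ENNReal.ofReal (C * L) * ∫⁻ w in Ioo (0 : ℝ) 1, ENNReal.ofReal (‖h w‖ ^ 2)) ^ (p / 2) :=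
  sorry

/-! ## A8: representation -/
theorem repr (m d : ℕ) (hm : 2 ≤ m) (hd : 1 ≤ d) (a : Fin m → ℝ → ℂ) (b : E d → ℂ) (M K : ℝ)
    (ha : ∀ j, Measurable (a j)) (hb : Measurable b) (hM : ∀ j u, ‖a j u‖ ≤ M)
    (hK : ∀ y, ‖b y‖ ≤ K) (x : E m) (y : E d) :
    ∫ z, Complex.exp (-((⟪J x y, z⟫ : ℝ) : ℂ) * I) * (ten a (P1 m d z) * b (P2 m d z))
      ∂(sg (m + d)) =
    ∫ y' in Metric.ball (0 : E d) 1, 2 * hh a x (1 - ‖y'‖ ^ 2) * b y' *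
      Complex.exp (-((⟪y', y⟫ : ℝ) : ℂ) * I) := sorry

end Pool.Agent.H438R2.PD
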